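import Pool.Agent.Q287.JR.JR11

/-!
# The joint recursive distributional equation of a diluted quadratic spin glass (MP_75c26c_pr)

For all `α, β > 0` and every law `D` with finite second moment (symmetric or not) the map `Φ` has
exactly one fixed point in the class of laws of `(U, X)` on `ℝ × [0,1]` with `E|U| < ∞`.
-/

open MeasureTheory ProbabilityTheory Set

namespace Pool.Agent.Results.MP_75c26c_pr.UniqueIntegrable

/-- The recursion function of the problem. The argument `q` collects the ingredients: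
`q.1 = R`, `(q.2 k).1 = (U_k, X_k)` and `(q.2 k).2 = (ξ_k, ζ_k)`; `W_k = 1 + 2 β ξ_k² X_k`. -/
noncomputable def recFun (β : ℝ) (q : ℕ × (ℕ → (ℝ × ℝ) × (ℝ × ℝ))) : ℝ × ℝ :=
  (1 - 2 * β * ∑ k ∈ Finset.range q.1,
      (q.2 k).2.1 * (q.2 k).2.2 * (q.2 k).1.1 * (q.2 k).1.2 /
        (1 + 2 * β * (q.2 k).2.1 ^ 2 * (q.2 k).1.2),
   1 / (1 + 2 * β * ∑ k ∈ Finset.range q.1,
      (q.2 k).2.2 ^ 2 / (1 + 2 * β * (q.2 k).2.1 ^ 2 * (q.2 k).1.2)))

/-- The map `Φ` on laws: the law of `recFun β (R, (U_k, X_k), (ξ_k, ζ_k))` where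
`R ~ Poisson(2α)`, `(U_k, X_k) ~ π`, `ξ_k ~ D`, `ζ_k ~ D` are all independent. -/
noncomputable def Phi (α β : ℝ) (D : Measure ℝ) (π : Measure (ℝ × ℝ)) : Measure (ℝ × ℝ) :=
  ((poissonMeasure (Real.toNNReal (2 * α))).prod
    (Measure.infinitePi (fun _ : ℕ => π.prod (D.prod D)))).map (recFun β)

/-- `π` is a probability law on `ℝ × [0,1]` which is a fixed point of `Φ`. -/
structure IsFixedLaw (α β : ℝ) (D : Measure ℝ) (π : Measure (ℝ × ℝ)) : Prop where
  prob : IsProbabilityMeasure π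
  supp : ∀ᵐ p ∂π, p.2 ∈ Icc (0 : ℝ) 1
  fixed : Phi α β D π = π

/-- For all `α, β > 0` and every probability law `D` on `ℝ` with finite second moment:
(1) `Φ` has a fixed point with `E|U| < ∞`, and it is the only fixed point in the class of laws
on `ℝ × [0,1]` with `E|U| < ∞`;
(2) this fixed point is the only one even in the larger class of laws with `E[X|U|] < ∞`;
(3) if `α ≤ 1/2` it is the only fixed point among all laws on `ℝ × [0,1]`. -/
theorem result (α β : ℝ) (_hα : 0 < α) (hβ : 0 < β) (D : Measure ℝ) [IsProbabilityMeasure D]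
    (hD : Integrable (fun x => x ^ 2) D) :
    (∃! π : Measure (ℝ × ℝ), IsFixedLaw α β D π ∧ Integrable (fun p => p.1) π) ∧
    (∀ π π' : Measure (ℝ × ℝ), IsFixedLaw α β D π → IsFixedLaw α β D π' →
      Integrable (fun p => p.2 * p.1) π → Integrable (fun p => p.2 * p.1) π' → π = π') ∧
    (α ≤ 1 / 2 → ∀ π π' : Measure (ℝ × ℝ), IsFixedLaw α β D π → IsFixedLaw α β D π' → π = π') := by
  have hD2 : ∫⁻ x, ENNReal.ofReal (x ^ 2) ∂D ≠ ⊤ := hD.lintegral_lt_top.ne
  have hPhi : ∀ π, Phi α β D π =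
      Pool.Agent.Q287.JR.PhiL (Real.toNNReal (2 * α)) β D π := fun π => rfl
  have h2 : ∀ π π' : Measure (ℝ × ℝ), IsFixedLaw α β D π → IsFixedLaw α β D π' →
      Integrable (fun p => p.2 * p.1) π → Integrable (fun p => p.2 * p.1) π' → π = π' := by
    intro π π' hπ hπ' hi hi'
    have := hπ.prob
    have := hπ'.prob
    exact Pool.Agent.Q287.JR.unique_L1 hβ.le hD2 hπ.supp hπ'.supp hi hi'
      (by rw [← hPhi]; exact hπ.fixed) (by rw [← hPhi]; exact hπ'.fixed)
  have hint : ∀ π : Measure (ℝ × ℝ), IsFixedLaw α β D π → Integrable (fun p => p.1) π →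
      Integrable (fun p => p.2 * p.1) π := by
    intro π hπ hi
    refine hi.bdd_mul (c := 1) (by fun_prop) ?_
    filter_upwards [hπ.supp] with p hp
    rw [Real.norm_eq_abs, abs_of_nonneg hp.1]
    exact hp.2
  refine ⟨?_, h2, ?_⟩
  · obtain ⟨π, p1, p2, p3, p4⟩ := Pool.Agent.Q287.JR.exists_fix
      (l := Real.toNNReal (2 * α)) hβ.le hD2
    have hfix : IsFixedLaw α β D π := ⟨p1, p2, by rw [hPhi]; exact p4⟩
    refine ⟨π, ⟨hfix, p3⟩, fun π' hπ' => ?_⟩
    exact h2 π' π hπ'.1 hfix (hint π' hπ'.1 hπ'.2) (hint π hfix p3)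
  · intro hα2 π π' hπ hπ'
    have := hπ.prob
    have := hπ'.prob
    have hl : Real.toNNReal (2 * α) ≤ 1 := by
      rw [← Real.toNNReal_one]
      exact Real.toNNReal_le_toNNReal (by linarith)
    exact Pool.Agent.Q287.JR.unique_all hβ.le hl hπ.supp hπ'.supp
      (by rw [← hPhi]; exact hπ.fixed) (by rw [← hPhi]; exact hπ'.fixed)

end Pool.Agent.Results.MP_75c26c_pr.UniqueIntegrable
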